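import Pool.Agent.MP_a0be58_an.Mg.Folner

open MeasureTheory Pool.Agent.MP_a0be58_an

namespace Pool.Agent.Results.MP_a0be58_an.NotInverseLimit

theorem result : (∃ Φ : ℕ → Finset Zw, IsFolner Φ) ∧
    ∃ (X : Type) (_ : MeasurableSpace X) (_ : StandardBorelSpace X) (μ : Measure X)
      (_ : IsProbabilityMeasure μ) (_ : AddAction Zw X) (_ : MeasurableConstVAdd Zw X),
      ErgodicVAdd Zw X μ ∧ IsOfOrder μ 3 ∧ ∀ d : ℕ → ℕ, ¬ IsInvLimit μ d :=
  ⟨⟨box, isFolner_box⟩, XX, inferInstance, inferInstance, muX, inferInstance, actXX, inferInstance,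
    ergodicX, orderX, not_invLimitX⟩

end Pool.Agent.Results.MP_a0be58_an.NotInverseLimit
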